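import Pool.Agent.Helper54.PT.DefsF
import Pool.Agent.Helper19.TW.C5b

/-!
# TE project: module B9 (good_even)
-/

set_option autoImplicit false

namespace Pool.Agent.Helper54.PT

open Polynomial Finset Filter Topology Module

section RatFunc

variable {F : Type} [Field F]

private theorem b9_neg (P : Prm F) {x : RatFunc F} (hx : x ≠ 0) : ordK P (-x) = ordK P x := by
  have h1 := ordK_mul P (neg_ne_zero.2 hx) (neg_ne_zero.2 hx)
  have h2 := ordK_mul P hx hx
  rw [neg_mul_neg, h2] at h1
  linarith

private theorem b9_add (P : Prm F) {x y : RatFunc F} (hx : x ≠ 0) (hy : y ≠ 0) (hxy : x + y ≠ 0)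
    (h : ordK P x < ordK P y) : ordK P (x + y) = ordK P x := by
  have h1 := ordK_add P hx hy hxy
  rw [min_eq_left h.le] at h1
  have h2 := ordK_add P hxy (neg_ne_zero.2 hy) (by rw [add_neg_cancel_right]; exact hx)
  rw [add_neg_cancel_right, b9_neg P hy] at h2
  rcases min_le_iff.1 h2 with h3 | h3
  · linarith
  · linarith

variable [Finite F] {lg : F → ZMod 2}

/-- B9: the local condition at a good prime (uses B1b) -/
theorem good_even (hlg : IsLog 2 lg) (P : Prm F) {α β : RatFunc F} (hα : α ≠ 0) (hβ : β ≠ 0)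
    (hγ : β - α ≠ 0) (hα' : ordK P α = 0) (hβ' : ordK P β = 0) (hγ' : ordK P (β - α) = 0)
    (κ : ZMod 2 × ZMod 2) (hκ : κ.1 = 0) (w : LS) (hw : LocK (clsP lg P) α β κ w) :
    w.1 = 0 := by
  have key : ∀ a b : ZMod 2 × ZMod 2, a.1 = 0 → b.1 = 0 → (mkL a b).1 = 0 := by
    intro a b ha hb
    funext j
    fin_cases j
    · simpa [mkL] using ha
    · simpa [mkL] using hb
  have cA : (clsP lg P α).1 = 0 := by simp [clsP, hα']
  have cB : (clsP lg P β).1 = 0 := by simp [clsP, hβ']
  have cC : (clsP lg P (β - α)).1 = 0 := by simp [clsP, hγ']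
  rcases hw with h | h | h | h | ⟨δ, x, hδ, hκδ, hx, hxa, hxb, hsum, h⟩
  · rw [h]; rfl
  · rw [h]
    refine key _ _ ?_ ?_
    · simp [clsP, ordK_mul P hα hβ, hα', hβ']
    · rw [Prod.fst_add, hκ, cA, add_zero]
  · rw [h]
    refine key _ _ ?_ ?_
    · rw [Prod.fst_add, hκ, cA, add_zero]
    · simp [clsP, ordK_mul P hα hγ, hα', hγ']
  · rw [h]
    refine key _ _ ?_ ?_
    · rw [Prod.fst_add, hκ, cB, add_zero]
    · rw [Prod.fst_add, hκ, cC, add_zero]
  · -- a point
    have hδ' : (ordK P δ : ZMod 2) = 0 := by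
      have : (clsP lg P δ).1 = κ.1 := by rw [hκδ]
      rw [hκ] at this
      exact this
    have oa : ordK P (δ * α) = ordK P δ := by rw [ordK_mul P hδ hα, hα', add_zero]
    have ob : ordK P (δ * β) = ordK P δ := by rw [ordK_mul P hδ hβ, hβ', add_zero]
    have oc : ordK P (δ * (β - α)) = ordK P δ := by rw [ordK_mul P hδ hγ, hγ', add_zero]
    have hδa := mul_ne_zero hδ hα
    have hδb := mul_ne_zero hδ hβ
    have hδc := mul_ne_zero hδ hγ
    have hs : (ordK P x : ZMod 2) + (ordK P (x + δ * α) : ZMod 2) +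
        (ordK P (x + δ * β) : ZMod 2) = 0 := congrArg Prod.fst hsum
    have hgoal : (ordK P x : ZMod 2) = 0 ∧ (ordK P (x + δ * α) : ZMod 2) = 0 := by
      rcases lt_trichotomy (ordK P x) (ordK P δ) with hlt | heq | hgt
      · have e1 := b9_add P hx hδa hxa (by rw [oa]; exact hlt)
        have e2 := b9_add P hx hδb hxb (by rw [ob]; exact hlt)
        rw [e1, e2] at hs
        rw [e1]
        generalize (ordK P x : ZMod 2) = z at hs
        revert z
        decide
      · have hx0 : (ordK P x : ZMod 2) = 0 := by rw [heq]; exact hδ'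
        have g1 := ordK_add P hx hδa hxa
        have g2 := ordK_add P hx hδb hxb
        rw [oa, heq, min_self] at g1
        rw [ob, heq, min_self] at g2
        refine ⟨hx0, ?_⟩
        rcases eq_or_lt_of_le g1 with h1 | h1
        · rw [← h1]; exact hδ'
        · have hcomm : δ * (β - α) + (x + δ * α) = x + δ * β := by ring
          have e2 := b9_add P hδc hxa (by rw [hcomm]; exact hxb) (by rw [oc]; exact h1)
          rw [hcomm, oc] at e2
          rw [hx0, e2, hδ', zero_add, add_zero] at hs
          exact hs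
      · have e1 := b9_add P hδa hx (by rw [add_comm]; exact hxa) (by rw [oa]; exact hgt)
        have e2 := b9_add P hδb hx (by rw [add_comm]; exact hxb) (by rw [ob]; exact hgt)
        rw [add_comm, oa] at e1
        rw [add_comm, ob] at e2
        rw [e1, e2, hδ', add_zero, add_zero] at hs
        exact ⟨hs, by rw [e1]; exact hδ'⟩
    rw [h]
    exact key _ _ hgoal.1 hgoal.2

end RatFunc

end Pool.Agent.Helper54.PT
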