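import Pool.Agent.Helper54.PT.DefsF
import Pool.Agent.Helper19.TW.C5b
import Pool.Agent.Helper57.TW.C6

/-!
# TE project: modules B13a (isSquare_of_cls) and B17 (generic_of_not_square)
-/

set_option autoImplicit false
set_option linter.unusedSectionVars false

namespace Pool.Agent.Helper54.PT

open Polynomial Finset Filter Topology Module

section RatFunc

variable {F : Type} [Field F] [Finite F] {lg : F → ZMod 2}

/-- B13a: an element with even orders and trivial leading coefficient is a square -/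
theorem isSquare_of_cls (hlg : IsLog 2 lg) {x : RatFunc F} (hx : x ≠ 0)
    (h : ∀ Q : Prm F, (ordK Q x : ZMod 2) = 0) (h' : lg (lcK x) = 0) : IsSquare x := by
  have : Fact (Nat.Prime 2) := ⟨Nat.prime_two⟩
  obtain ⟨y, hy⟩ := exists_pow_of_class hlg hx (fun Q => by
    have h2 := (ZMod.intCast_zmod_eq_zero_iff_dvd (ordK Q x) 2).1 (h Q)
    exact h2) h'
  exact ⟨y, by rw [hy, sq]⟩

variable {σ : Type} [Fintype σ] [DecidableEq σ] {R : σ → Prm F} {α β : F[X]}

/-- B17: the genericity conditions (uses B13a) -/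
theorem generic_of_not_square (hlg : IsLog 2 lg) (hS : SetupF R α β) {f g : F[X]}
    (hf : f ∣ α * β * (β - α)) (hg : g ∣ α * β * (β - α)) (h : ¬ IsSquare (f * g)) :
    ∃ s, bclF R lg (algebraMap F[X] (RatFunc F) f) s +
      bclF R lg (algebraMap F[X] (RatFunc F) g) s ≠ 0 := by
  by_contra hcon
  push Not at hcon
  apply h
  have h0 : α * β * (β - α) ≠ 0 := mul_ne_zero (mul_ne_zero hS.hα hS.hβ) hS.hγ
  have hf0 : f ≠ 0 := fun h1 => h0 (by rw [h1] at hf; exact zero_dvd_iff.1 hf)
  have hg0 : g ≠ 0 := fun h1 => h0 (by rw [h1] at hg; exact zero_dvd_iff.1 hg)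
  have hfK : algebraMap F[X] (RatFunc F) f ≠ 0 := RatFunc.algebraMap_ne_zero hf0
  have hgK : algebraMap F[X] (RatFunc F) g ≠ 0 := RatFunc.algebraMap_ne_zero hg0
  have hsq : IsSquare (algebraMap F[X] (RatFunc F) (f * g)) := by
    refine isSquare_of_cls hlg (RatFunc.algebraMap_ne_zero (mul_ne_zero hf0 hg0)) ?_ ?_
    · intro Q
      rw [map_mul, ordK_mul Q hfK hgK]
      by_cases hQ : ∃ r, R r = Q
      · obtain ⟨r, rfl⟩ := hQ
        have := hcon (some r)
        simp only [bclF] at this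
        push_cast
        exact this
      · have hQ' : ¬ Q.1 ∣ α * β * (β - α) := fun h1 => hQ ((hS.mem Q).2 h1)
        rw [ordK_poly Q hf0, ordK_poly Q hg0, c5_mult_eq_zero fun h1 => hQ' (h1.trans hf),
          c5_mult_eq_zero fun h1 => hQ' (h1.trans hg)]
        simp
    · rw [map_mul, lcK_mul hfK hgK, hlg.1 _ _ (lcK_ne_zero hfK) (lcK_ne_zero hgK)]
      exact hcon none
  obtain ⟨y, hy⟩ := hsq
  have hint : IsIntegral F[X] y := by
    refine ⟨X ^ 2 - C (f * g), monic_X_pow_sub_C _ two_ne_zero, ?_⟩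
    rw [eval₂_sub, eval₂_X_pow, eval₂_C, hy]
    ring
  obtain ⟨z, hz⟩ := IsIntegrallyClosed.isIntegral_iff.1 hint
  refine ⟨z, ?_⟩
  apply RatFunc.algebraMap_injective F
  rw [hy, map_mul, hz]

end RatFunc

end Pool.Agent.Helper54.PT
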